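import Mathlib
import Pool.Agent.Helper82.Kneser

/-!
The maximum size of a `[0,2]`-sum-free subset of `ℤ_n` is `v₂(n,4)` for every `n ≥ 1`.

If `{0}`, `A`, `A + A` are pairwise disjoint, then `A ∪ -A` is disjoint from `A - A`, and
`A ∩ -A = ∅`.  Kneser's theorem for `A - A` gives the upper bound.
-/

open scoped Pointwise

namespace Pool.Agent.Results.MP_c3b97e_co.MaxSumFreeCyclic

open Pool.Agent.Helper82.Kneser

/-- The `h`-fold sumset `hA`, with `0A = {0}`. -/
def hFold {G : Type} [AddCommGroup G] [DecidableEq G] (A : Finset G) : ℕ → Finset G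
  | 0 => {0}
  | h + 1 => hFold A h + A

/-- `A` is `H`-sum-free: `h₁A ∩ h₂A = ∅` for all distinct `h₁, h₂ ∈ H`. -/
def IsSumFreeFor {G : Type} [AddCommGroup G] [DecidableEq G] (H : Set ℕ) (A : Finset G) : Prop :=
  ∀ h₁ ∈ H, ∀ h₂ ∈ H, h₁ ≠ h₂ → Disjoint (hFold A h₁) (hFold A h₂)

/-- `μ(G, H)`: the maximum size of an `H`-sum-free subset of the finite abelian group `G`. -/
noncomputable def mu (G : Type) [AddCommGroup G] [DecidableEq G] [Finite G] (H : Set ℕ) : ℕ :=
  sSup {k : ℕ | ∃ A : Finset G, IsSumFreeFor H A ∧ A.card = k}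

open Classical in
/-- `v₂(n,4)`: it is `(1 + 1/p) n/4` if `n` has a prime divisor `≡ 3 mod 4`, the smallest such
being `p`, and `⌊n/4⌋` otherwise. -/
noncomputable def v2 (n : ℕ) : ℚ :=
  if h : ∃ p : ℕ, p.Prime ∧ p ∣ n ∧ p % 4 = 3 then
    (1 + 1 / ((Nat.find h : ℕ) : ℚ)) * ((n : ℚ) / 4)
  else ((n / 4 : ℕ) : ℚ)

lemma sumFree_iff {G : Type} [AddCommGroup G] [DecidableEq G] (A : Finset G) :
    IsSumFreeFor (Set.Icc 0 2) A ↔ (0 : G) ∉ A ∧ (0 : G) ∉ A + A ∧ Disjoint A (A + A) := by
  have h0 : hFold A 0 = {0} := rfl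
  have h1 : hFold A 1 = A := by
    show ({0} : Finset G) + A = A
    ext x
    rw [Finset.mem_add]
    constructor
    · rintro ⟨y, hy, z, hz, rfl⟩
      rw [Finset.mem_singleton] at hy
      rw [hy, zero_add]
      exact hz
    · intro hx
      exact ⟨0, Finset.mem_singleton_self 0, x, hx, zero_add x⟩
  have h2 : hFold A 2 = A + A := by
    show hFold A 1 + A = A + A
    rw [h1]
  constructor
  · intro h
    refine ⟨?_, ?_, ?_⟩
    · have := h 0 (by simp) 1 (by simp) (by norm_num)
      rw [h0, h1] at this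
      simpa using this
    · have := h 0 (by simp) 2 (by simp) (by norm_num)
      rw [h0, h2] at this
      exact Finset.disjoint_singleton_left.1 this
    · have := h 1 (by simp) 2 (by simp) (by norm_num)
      rwa [h1, h2] at this
  · rintro ⟨a1, a2, a3⟩ i hi j hj hij
    have b1 : Disjoint (hFold A 0) (hFold A 1) := by
      rw [h0, h1]; exact Finset.disjoint_singleton_left.2 a1
    have b2 : Disjoint (hFold A 0) (hFold A 2) := by
      rw [h0, h2]; exact Finset.disjoint_singleton_left.2 a2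
    have b3 : Disjoint (hFold A 1) (hFold A 2) := by rwa [h1, h2]
    obtain ⟨-, hi⟩ := hi
    obtain ⟨-, hj⟩ := hj
    interval_cases i <;> interval_cases j <;>
      first
        | exact absurd rfl hij
        | assumption
        | exact Disjoint.symm (by assumption)

/-- A periodic finite set has size divisible by the order of the subgroup. -/
lemma dvd_card_of_periodic {G : Type} [AddCommGroup G] [DecidableEq G] {H : Finset G}
    (hH : IsSub H) (n : ℕ) : ∀ C : Finset G, C.card = n → (∀ h ∈ H, ∀ x ∈ C, h + x ∈ C) →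
    H.card ∣ C.card := by
  induction n using Nat.strong_induction_on with
  | _ n ih =>
    intro C hn hp
    rcases C.eq_empty_or_nonempty with rfl | ⟨x, hx⟩
    · simp
    · set K := H.image (fun h => h + x) with hK
      have hKC : K ⊆ C := by
        intro y hy
        obtain ⟨h, hh, rfl⟩ := Finset.mem_image.1 hy
        exact hp h hh x hx
      have hKcard : K.card = H.card := Finset.card_image_of_injective _ (add_left_injective x)
      have hHpos : 0 < H.card := Finset.card_pos.2 ⟨0, hH.zero⟩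
      have hsum : (C \ K).card + K.card = C.card := Finset.card_sdiff_add_card_eq_card hKC
      have := ih (C \ K).card (by omega) (C \ K) rfl (by
        intro h hh y hy
        rw [Finset.mem_sdiff] at hy ⊢
        refine ⟨hp h hh y hy.1, fun hmem => hy.2 ?_⟩
        obtain ⟨h', hh', he⟩ := Finset.mem_image.1 hmem
        rw [hK, Finset.mem_image]
        refine ⟨h' - h, hH.sub hh' hh, ?_⟩
        have : h' + x = h + y := he
        have e : h' - h + x = (h' + x) - h := by abel
        show h' - h + x = y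
        rw [e, this]
        abel)
      rw [← hsum, hKcard]
      exact (Nat.dvd_add_right this).2 dvd_rfl

/-- The upper bound in an arbitrary finite abelian group. -/
lemma upper {G : Type} [AddCommGroup G] [DecidableEq G] [Fintype G] (A : Finset G)
    (h1 : (0 : G) ∉ A + A) (h2 : Disjoint A (A + A)) :
    4 * A.card ≤ Fintype.card G ∨
      ∃ d m k : ℕ, d * m = Fintype.card G ∧ 4 * k ≤ d + 1 ∧ A.card ≤ k * m := by
  classical
  rcases A.eq_empty_or_nonempty with rfl | hA
  · left; simp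
  have hnegA : (-A).Nonempty := hA.neg
  set S := A + (-A) with hS
  have hSne : S.Nonempty := hA.add hnegA
  set H := stab S with hHdef
  have hH : IsSub H := isSub_stab hSne
  have hk := kneser hA hnegA
  rw [← hS, ← hHdef] at hk
  have hHpos : 0 < H.card := Finset.card_pos.2 ⟨0, hH.zero⟩
  -- facts on `A`
  have memS : ∀ x, x ∈ S ↔ ∃ a ∈ A, ∃ b ∈ A, a - b = x := by
    intro x
    rw [hS, Finset.mem_add]
    constructor
    · rintro ⟨a, ha, b, hb, rfl⟩
      rw [Finset.mem_neg] at hb
      obtain ⟨c, hc, rfl⟩ := hb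
      exact ⟨a, ha, c, hc, by abel⟩
    · rintro ⟨a, ha, b, hb, rfl⟩
      exact ⟨a, ha, -b, Finset.neg_mem_neg hb, by abel⟩
  have negS : ∀ x ∈ S, -x ∈ S := by
    intro x hx
    rw [memS] at hx ⊢
    obtain ⟨a, ha, b, hb, rfl⟩ := hx
    exact ⟨b, hb, a, ha, by abel⟩
  have hAS : ∀ a ∈ A, a ∉ S := by
    intro a ha hmem
    rw [memS] at hmem
    obtain ⟨b, hb, c, hc, hbc⟩ := hmem
    have : b ∈ A + A := Finset.mem_add.2 ⟨a, ha, c, hc, by rw [← hbc]; abel⟩
    exact Finset.disjoint_left.1 h2 hb this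
  have hnegAS : ∀ a ∈ A, -a ∉ S := by
    intro a ha hmem
    have := negS _ hmem
    rw [neg_neg] at this
    exact hAS a ha this
  have hAnegA : ∀ a ∈ A, -a ∉ A := by
    intro a ha hmem
    exact h1 (Finset.mem_add.2 ⟨a, ha, -a, hmem, by abel⟩)
  have hSH : ∀ h ∈ H, ∀ x ∈ S, h + x ∈ S := fun h hh x hx => add_mem_of_mem_stab hh hx
  -- the periodic hulls
  set P := A + H with hP
  set N := (-A) + H with hN
  have hPper : ∀ h ∈ H, ∀ x ∈ P, h + x ∈ P := by
    intro h hh x hx
    rw [hP, Finset.mem_add] at hx ⊢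
    obtain ⟨a, ha, g, hg, rfl⟩ := hx
    exact ⟨a, ha, h + g, hH.add hh hg, by abel⟩
  have hNP : ∀ x, x ∈ N ↔ -x ∈ P := by
    intro x
    rw [hN, hP, Finset.mem_add, Finset.mem_add]
    constructor
    · rintro ⟨a, ha, g, hg, rfl⟩
      obtain ⟨c, hc, rfl⟩ := Finset.mem_neg.1 ha
      exact ⟨c, hc, -g, hH.neg hg, by abel⟩
    · rintro ⟨a, ha, g, hg, hag⟩
      exact ⟨-a, Finset.neg_mem_neg ha, -g, hH.neg hg, by
        have : x = -(a + g) := by rw [hag]; abel
        rw [this]; abel⟩
  have hNper : ∀ h ∈ H, ∀ x ∈ N, h + x ∈ N := by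
    intro h hh x hx
    rw [hNP] at hx ⊢
    have := hPper (-h) (hH.neg hh) _ hx
    have e : -h + -x = -(h + x) := by abel
    rwa [e] at this
  have hNcard : N.card = P.card := by
    apply Finset.card_bij (fun x _ => -x)
    · intro x hx
      exact (hNP x).1 hx
    · intro x _ y _ hxy
      exact neg_injective hxy
    · intro y hy
      exact ⟨-y, (hNP (-y)).2 (by rwa [neg_neg]), neg_neg y⟩
  have hPS : Disjoint (P ∪ N) S := by
    rw [Finset.disjoint_left]
    intro x hx hxS
    rw [Finset.mem_union] at hx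
    rcases hx with hx | hx
    · rw [hP, Finset.mem_add] at hx
      obtain ⟨a, ha, g, hg, rfl⟩ := hx
      have := hSH (-g) (hH.neg hg) _ hxS
      have e : -g + (a + g) = a := by abel
      rw [e] at this
      exact hAS a ha this
    · rw [hNP, hP, Finset.mem_add] at hx
      obtain ⟨a, ha, g, hg, hag⟩ := hx
      have := hSH g hg _ hxS
      have e : g + x = -a := by
        have : x = -(a + g) := by rw [hag]; abel
        rw [this]; abel
      rw [e] at this
      exact hnegAS a ha this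
  set E := P ∩ N with hE
  have hcardU : (P ∪ N).card + E.card = P.card + N.card := Finset.card_union_add_card_inter P N
  have htot : (P ∪ N).card + S.card ≤ Fintype.card G := by
    rw [← Finset.card_union_of_disjoint hPS]
    exact Finset.card_le_univ _
  have hAP : A ⊆ P := by
    intro a ha
    rw [hP, Finset.mem_add]
    exact ⟨a, ha, 0, hH.zero, by simp⟩
  -- `2 #(A ∩ E) ≤ #E`
  have hAE : 2 * (A ∩ E).card ≤ E.card := by
    have hd : Disjoint (A ∩ E) ((A ∩ E).image (fun x => -x)) := by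
      rw [Finset.disjoint_left]
      intro x hx hx'
      obtain ⟨y, hy, hyx⟩ := Finset.mem_image.1 hx'
      rw [Finset.mem_inter] at hx hy
      have : -y = x := hyx
      exact hAnegA y hy.1 (this ▸ hx.1)
    have hsub : (A ∩ E) ∪ ((A ∩ E).image (fun x => -x)) ⊆ E := by
      intro x hx
      rw [Finset.mem_union] at hx
      rcases hx with hx | hx
      · exact (Finset.mem_inter.1 hx).2
      · obtain ⟨y, hy, rfl⟩ := Finset.mem_image.1 hx
        have hyE := (Finset.mem_inter.1 hy).2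
        rw [hE, Finset.mem_inter] at hyE ⊢
        exact ⟨(hNP y).1 hyE.2, (hNP (-y)).2 (by rw [neg_neg]; exact hyE.1)⟩
    have := Finset.card_le_card hsub
    rw [Finset.card_union_of_disjoint hd, Finset.card_image_of_injective _ neg_injective] at this
    omega
  have hA' : A.card + E.card ≤ P.card + (A ∩ E).card := by
    have h3 : (A \ E).card + (A ∩ E).card = A.card := Finset.card_sdiff_add_card_inter A E
    have h4 : (A \ E).card ≤ (P \ E).card :=
      Finset.card_le_card (Finset.sdiff_subset_sdiff hAP (Finset.Subset.refl _))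
    have h5 : (P \ E).card + E.card = P.card :=
      Finset.card_sdiff_add_card_eq_card (hE ▸ Finset.inter_subset_left)
    omega
  rcases E.eq_empty_or_nonempty with hEe | hEne
  · right
    have hE0 : E.card = 0 := by rw [hEe]; rfl
    obtain ⟨k, hk'⟩ := dvd_card_of_periodic hH _ P rfl hPper
    obtain ⟨d, hd⟩ := dvd_card_of_periodic hH _ (Finset.univ : Finset G) rfl
      (fun _ _ _ _ => Finset.mem_univ _)
    rw [Finset.card_univ] at hd
    refine ⟨d, H.card, k, by rw [hd]; ring, ?_, ?_⟩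
    · have h6 : H.card * (4 * k) ≤ H.card * (d + 1) := by
        have : 4 * P.card ≤ Fintype.card G + H.card := by omega
        rw [hk', hd] at this
        nlinarith
      exact Nat.le_of_mul_le_mul_left h6 hHpos
    · have := Finset.card_le_card hAP
      rw [hk'] at this
      rw [mul_comm]
      exact this
  · left
    have hEH : H.card ≤ E.card := by
      apply card_le_of_periodic _ hEne
      intro h hh x hx
      rw [hE, Finset.mem_inter] at hx ⊢
      exact ⟨hPper h hh x hx.1, hNper h hh x hx.2⟩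
    omega

/-- A number `≡ 3 mod 4` has a prime divisor `≡ 3 mod 4`. -/
lemma exists_prime_three_mod_four (d : ℕ) : d % 4 = 3 → ∃ p : ℕ, p.Prime ∧ p ∣ d ∧ p % 4 = 3 := by
  induction d using Nat.strong_induction_on with
  | _ d ih =>
    intro hd
    have hd1 : d ≠ 1 := by omega
    have hp := Nat.minFac_prime hd1
    obtain ⟨e, he⟩ := Nat.minFac_dvd d
    set q := Nat.minFac d
    have hq2 : q ≥ 2 := hp.two_le
    have hmod : (q % 4) * (e % 4) % 4 = 3 := by
      rw [← Nat.mul_mod, ← he]; exact hd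
    have hq4 : q % 4 < 4 := Nat.mod_lt _ (by norm_num)
    have he4 : e % 4 < 4 := Nat.mod_lt _ (by norm_num)
    have hcase : (q % 4 = 3) ∨ (e % 4 = 3) := by
      generalize q % 4 = x at *
      generalize e % 4 = y at *
      interval_cases x <;> interval_cases y <;> simp_all
    rcases hcase with h | h
    · exact ⟨q, hp, ⟨e, he⟩, h⟩
    · have hepos : 0 < e := by
        rcases Nat.eq_zero_or_pos e with h0 | h0
        · rw [h0] at h; simp at h
        · exact h0
      obtain ⟨p, hp1, hp2, hp3⟩ := ih e (by nlinarith) h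
      exact ⟨p, hp1, hp2.trans ⟨q, by rw [mul_comm]; exact he⟩, hp3⟩

lemma le_v2_of_four_mul_le {n a : ℕ} (h : 4 * a ≤ n) : (a : ℚ) ≤ v2 n := by
  unfold v2
  have hq : (4 : ℚ) * a ≤ n := by exact_mod_cast h
  split_ifs with hex
  · have hnn : (0 : ℚ) ≤ 1 / ((Nat.find hex : ℕ) : ℚ) := by positivity
    have : (0 : ℚ) ≤ (n : ℚ) / 4 := by positivity
    nlinarith
  · have : a ≤ n / 4 := by omega
    exact_mod_cast this

lemma le_v2 {n d m k a : ℕ} (hdm : d * m = n) (hn : 0 < n) (hk : 4 * k ≤ d + 1)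
    (ha : a ≤ k * m) : (a : ℚ) ≤ v2 n := by
  by_cases hd : d % 4 = 3
  · obtain ⟨q, hq1, hq2, hq3⟩ := exists_prime_three_mod_four d hd
    have hex : ∃ p : ℕ, p.Prime ∧ p ∣ n ∧ p % 4 = 3 :=
      ⟨q, hq1, hq2.trans ⟨m, hdm.symm⟩, hq3⟩
    unfold v2
    rw [dif_pos hex]
    have hdpos : 0 < d := by omega
    have hfind : Nat.find hex ≤ q := Nat.find_min' hex ⟨hq1, hq2.trans ⟨m, hdm.symm⟩, hq3⟩
    have hqd : q ≤ d := Nat.le_of_dvd hdpos hq2
    have hfpos : 0 < Nat.find hex := (Nat.find_spec hex).1.pos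
    have hfd : ((Nat.find hex : ℕ) : ℚ) ≤ d := by exact_mod_cast hfind.trans hqd
    have hfpos' : (0 : ℚ) < ((Nat.find hex : ℕ) : ℚ) := by exact_mod_cast hfpos
    have hinv : 1 / (d : ℚ) ≤ 1 / ((Nat.find hex : ℕ) : ℚ) :=
      one_div_le_one_div_of_le hfpos' hfd
    have h4 : 4 * a ≤ (d + 1) * m := by nlinarith
    have h4' : (4 : ℚ) * a ≤ (d + 1) * m := by exact_mod_cast h4
    have hdq : (0 : ℚ) < d := by exact_mod_cast hdpos
    have hnq : (n : ℚ) = d * m := by rw [← hdm]; push_cast; ring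
    have e : ((d : ℚ) + 1) * m = (1 + 1 / d) * n := by
      rw [hnq]; field_simp
    rw [e] at h4'
    have hnn : (0 : ℚ) ≤ n := by positivity
    nlinarith
  · apply le_v2_of_four_mul_le
    have : 4 * k ≤ d := by omega
    calc 4 * a ≤ 4 * (k * m) := by omega
      _ = (4 * k) * m := by ring
      _ ≤ d * m := Nat.mul_le_mul_right _ this
      _ = n := hdm

/-- The construction. -/
lemma construct (n d m a b : ℕ) (hdm : n = d * m) (hb : b < 2 * a)
    (h2b : 2 * b < d) :
    ∃ A : Finset (ZMod n), IsSumFreeFor (Set.Icc 0 2) A ∧ A.card = m * (b + 1 - a) := by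
  classical
  have hdpos : 0 < d := by omega
  set f : ℕ × ℕ → ZMod n := fun p => ((d * p.1 + p.2 : ℕ) : ZMod n) with hf
  set T : Finset (ℕ × ℕ) := Finset.range m ×ˢ Finset.Icc a b with hT
  have hmemT : ∀ p ∈ T, p.1 < m ∧ a ≤ p.2 ∧ p.2 ≤ b := by
    intro p hp
    rw [hT, Finset.mem_product, Finset.mem_range, Finset.mem_Icc] at hp
    exact ⟨hp.1, hp.2.1, hp.2.2⟩
  have hmodeq : ∀ x y : ℕ, (x : ZMod n) = (y : ZMod n) → x % d = y % d := by
    intro x y hxy
    rw [ZMod.natCast_eq_natCast_iff] at hxy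
    have : x ≡ y [MOD d] := hxy.of_dvd ⟨m, hdm⟩
    exact this
  refine ⟨T.image f, ?_, ?_⟩
  · rw [sumFree_iff]
    have hmem : ∀ x ∈ T.image f, ∃ r : ℕ, ∃ t : ℕ, x = ((t : ℕ) : ZMod n) ∧ t % d = r ∧
        a ≤ r ∧ r ≤ b := by
      intro x hx
      obtain ⟨p, hp, rfl⟩ := Finset.mem_image.1 hx
      obtain ⟨_, hp2, hp3⟩ := hmemT p hp
      refine ⟨p.2, d * p.1 + p.2, rfl, ?_, hp2, hp3⟩
      rw [Nat.mul_add_mod, Nat.mod_eq_of_lt (by omega)]
    have hmem2 : ∀ x ∈ T.image f + T.image f, ∃ t : ℕ, x = ((t : ℕ) : ZMod n) ∧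
        2 * a ≤ t % d := by
      intro x hx
      obtain ⟨y, hy, z, hz, rfl⟩ := Finset.mem_add.1 hx
      obtain ⟨r, t, ht, htr, har, hrb⟩ := hmem y hy
      obtain ⟨r', t', ht', htr', har', hrb'⟩ := hmem z hz
      refine ⟨t + t', by rw [ht, ht']; push_cast; ring, ?_⟩
      rw [Nat.add_mod, htr, htr', Nat.mod_eq_of_lt (by omega)]
      omega
    refine ⟨?_, ?_, ?_⟩
    · intro h0
      obtain ⟨r, t, ht, htr, har, hrb⟩ := hmem 0 h0
      have := hmodeq 0 t (by rw [← ht]; simp)
      rw [htr, Nat.zero_mod] at this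
      omega
    · intro h0
      obtain ⟨t, ht, hta⟩ := hmem2 0 h0
      have := hmodeq 0 t (by rw [← ht]; simp)
      rw [Nat.zero_mod] at this
      omega
    · rw [Finset.disjoint_left]
      intro x hx hx2
      obtain ⟨r, t, ht, htr, har, hrb⟩ := hmem x hx
      obtain ⟨t', ht', hta'⟩ := hmem2 x hx2
      have := hmodeq t t' (by rw [← ht, ← ht'])
      omega
  · rw [Finset.card_image_of_injOn]
    · rw [hT, Finset.card_product, Finset.card_range, Nat.card_Icc]
    · intro p hp q hq hpq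
      obtain ⟨hp1, hp2, hp3⟩ := hmemT p hp
      obtain ⟨hq1, hq2, hq3⟩ := hmemT q hq
      have hlt : ∀ p : ℕ × ℕ, p.1 < m → p.2 ≤ b → d * p.1 + p.2 < n := by
        intro p h1 h2
        have h5 : d * (p.1 + 1) ≤ d * m := Nat.mul_le_mul_left _ h1
        rw [hdm]
        have h6 : d * (p.1 + 1) = d * p.1 + d := by ring
        omega
      have h7 : d * p.1 + p.2 = d * q.1 + q.2 := by
        have h8 : ((d * p.1 + p.2 : ℕ) : ZMod n) = ((d * q.1 + q.2 : ℕ) : ZMod n) := hpq
        rw [ZMod.natCast_eq_natCast_iff'] at h8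
        rwa [Nat.mod_eq_of_lt (hlt p hp1 hp3), Nat.mod_eq_of_lt (hlt q hq1 hq3)] at h8
      have h9 : p.2 = q.2 := by
        have := congrArg (· % d) h7
        simp only [Nat.mul_add_mod] at this
        rwa [Nat.mod_eq_of_lt (by omega), Nat.mod_eq_of_lt (by omega)] at this
      have h10 : p.1 = q.1 := by
        have : d * p.1 = d * q.1 := by omega
        exact Nat.eq_of_mul_eq_mul_left hdpos this
      exact Prod.ext h10 h9

/-- `μ(ℤ_n, [0,2]) = v₂(n,4)` for every positive integer `n`. -/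
theorem result (n : ℕ) [NeZero n] : (mu (ZMod n) (Set.Icc 0 2) : ℚ) = v2 n := by
  classical
  have hn : 0 < n := Nat.pos_of_ne_zero (NeZero.ne n)
  have hub : ∀ A : Finset (ZMod n), IsSumFreeFor (Set.Icc 0 2) A → (A.card : ℚ) ≤ v2 n := by
    intro A hA
    rw [sumFree_iff] at hA
    have hcardG : Fintype.card (ZMod n) = n := ZMod.card n
    rcases upper A hA.2.1 hA.2.2 with h | ⟨d, m, k, h1, h2, h3⟩
    · rw [hcardG] at h
      exact le_v2_of_four_mul_le h
    · rw [hcardG] at h1
      exact le_v2 h1 hn h2 h3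
  have hlb : ∃ A : Finset (ZMod n), IsSumFreeFor (Set.Icc 0 2) A ∧ (A.card : ℚ) = v2 n := by
    by_cases hex : ∃ p : ℕ, p.Prime ∧ p ∣ n ∧ p % 4 = 3
    · set p := Nat.find hex with hpdef
      obtain ⟨hp1, ⟨m, hm⟩, hp3⟩ := Nat.find_spec hex
      rw [← hpdef] at hp1 hm hp3
      obtain ⟨A, hA1, hA2⟩ := construct n p m ((p + 1) / 4) ((p - 1) / 2) hm
        (by omega) (by omega)
      refine ⟨A, hA1, ?_⟩
      unfold v2
      rw [dif_pos hex, hA2]
      have hp4 : (p - 1) / 2 + 1 - (p + 1) / 4 = (p + 1) / 4 := by omega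
      rw [hp4]
      obtain ⟨t, ht⟩ : ∃ t, p + 1 = 4 * t := ⟨(p + 1) / 4, by omega⟩
      have ht' : (p + 1) / 4 = t := by omega
      rw [ht', ← hpdef]
      have hpq : ((p : ℕ) : ℚ) = 4 * t - 1 := by
        have : ((p + 1 : ℕ) : ℚ) = ((4 * t : ℕ) : ℚ) := by rw [ht]
        push_cast at this
        linarith
      have hp0 : ((p : ℕ) : ℚ) ≠ 0 := by
        have := hp1.pos
        positivity
      have hnq : (n : ℚ) = p * m := by
        conv_lhs => rw [hm]
        push_cast; ring
      rw [hnq]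
      push_cast
      field_simp
      rw [hpq]
      ring
    · obtain ⟨A, hA1, hA2⟩ := construct n n 1 ((n - 1) / 2 + 1 - n / 4) ((n - 1) / 2)
        (by simp) (by omega) (by omega)
      refine ⟨A, hA1, ?_⟩
      unfold v2
      rw [dif_neg hex, hA2]
      have : 1 * ((n - 1) / 2 + 1 - ((n - 1) / 2 + 1 - n / 4)) = n / 4 := by omega
      rw [this]
  obtain ⟨A, hA1, hA2⟩ := hlb
  have hgreat : IsGreatest {k : ℕ | ∃ A : Finset (ZMod n), IsSumFreeFor (Set.Icc 0 2) A ∧
      A.card = k} A.card := by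
    refine ⟨⟨A, hA1, rfl⟩, ?_⟩
    rintro k ⟨B, hB1, rfl⟩
    have := hub B hB1
    rw [← hA2] at this
    exact_mod_cast this
  unfold mu
  rw [hgreat.csSup_eq, hA2]

end Pool.Agent.Results.MP_c3b97e_co.MaxSumFreeCyclic
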